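import Mathlib

/-!
# FU: two lemmas of real analysis
-/

open Set MeasureTheory Filter Topology

namespace Pool.Agent.Helper6.FU

/-- Upper bounds for intervals give upper bounds for continuous weights. -/
theorem riem {l : Filter ℝ} {g : ℝ → ℝ → ℝ} {m v : ℝ → ℝ} {p e : ℝ} (hpe : p < e)
    (hg : ∀ T, Continuous (g T)) (hg0 : ∀ᶠ T in l, ∀ x, 0 ≤ g T x) (hm : Continuous m)
    (hm0 : ∀ x, p ≤ x → 0 ≤ m x) (hv : Continuous v) (hv0 : ∀ x, 0 ≤ v x)
    (H : ∀ a b : ℝ, p ≤ a → a < b → ∀ ε : ℝ, 0 < ε → ∀ᶠ T in l, ∫ x in a..b, g T x ≤ (∫ x in a..b, m x) + ε)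
    {ε : ℝ} (hε : 0 < ε) :
    ∀ᶠ T in l, ∫ x in p..e, v x * g T x ≤ (∫ x in p..e, v x * m x) + ε := by
  have hM0 : 0 ≤ ∫ x in p..e, m x := intervalIntegral.integral_nonneg hpe.le fun x hx => hm0 x hx.1
  obtain ⟨M, hM⟩ : ∃ M, M = ∫ x in p..e, m x := ⟨_, rfl⟩
  rw [← hM] at hM0
  obtain ⟨δ, hδ⟩ : ∃ δ, δ = ε / (4 * (M + 1)) := ⟨_, rfl⟩
  have hδ0 : 0 < δ := by rw [hδ]; positivity
  have hδM : 2 * δ * M ≤ ε / 2 := by
    rw [hδ]
    rw [show 2 * (ε / (4 * (M + 1))) * M = (ε / 2) * (M / (M + 1)) by field_simp; ring]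
    have : M / (M + 1) ≤ 1 := by
      rw [div_le_one (by positivity)]
      linarith
    nlinarith
  -- bound of v
  obtain ⟨K, hK⟩ : ∃ K : ℝ, ∀ x ∈ Icc p e, v x ≤ K := by
    obtain ⟨x, _, hx⟩ := isCompact_Icc.exists_isMaxOn (nonempty_Icc.2 hpe.le) (hv.continuousOn (s := Icc p e))
    exact ⟨v x, fun y hy => hx hy⟩
  have hK0 : 0 ≤ K := (hv0 p).trans (hK p (left_mem_Icc.2 hpe.le))
  -- uniform continuity
  have huc := isCompact_Icc.uniformContinuousOn_of_continuous (hv.continuousOn (s := Icc p e))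
  rw [Metric.uniformContinuousOn_iff] at huc
  obtain ⟨η, hη, hvη⟩ := huc δ hδ0
  obtain ⟨N, hN⟩ := exists_nat_gt ((e - p) / η)
  have hNpos : 0 < (N : ℝ) := lt_trans (div_pos (by linarith) hη) hN
  have hN0 : N ≠ 0 := by
    rintro rfl
    simp at hNpos
  obtain ⟨h, hh⟩ : ∃ h : ℝ, h = (e - p) / N := ⟨_, rfl⟩
  have hh0 : 0 < h := by rw [hh]; exact div_pos (by linarith) hNpos
  have hhη : h < η := by
    rw [hh, div_lt_iff₀ hNpos]
    rw [div_lt_iff₀ hη] at hN
    linarith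
  obtain ⟨X, hX⟩ : ∃ X : ℕ → ℝ, X = fun j : ℕ => p + (j : ℝ) * h := ⟨_, rfl⟩
  have hX0 : X 0 = p := by rw [hX]; simp
  have hXN : X N = e := by
    rw [hX, hh]
    simp only
    field_simp
    ring
  have hXlt : ∀ j, X j < X (j + 1) := by
    intro j
    rw [hX]
    push_cast
    nlinarith
  have hXmem : ∀ j, j < N → p ≤ X j ∧ X (j + 1) ≤ e := by
    intro j hj
    have hj' : (j : ℝ) + 1 ≤ N := by exact_mod_cast hj
    rw [← hXN, hX]
    constructor
    · have : 0 ≤ (j : ℝ) * h := by positivity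
      linarith
    · push_cast
      have := mul_le_mul_of_nonneg_right hj' hh0.le
      linarith
  have hosc : ∀ j, j < N → ∀ x ∈ Icc (X j) (X (j + 1)), |v x - v (X j)| ≤ δ := by
    intro j hj x hx
    obtain ⟨h1, h2⟩ := hXmem j hj
    have h3 := hvη x ⟨h1.trans hx.1, hx.2.trans h2⟩ (X j) ⟨h1, (hXlt j).le.trans h2⟩ (by
      rw [Real.dist_eq, abs_of_nonneg (by linarith [hx.1])]
      have h4 : X (j + 1) - X j = h := by
        rw [hX]
        push_cast
        ring
      linarith [hx.2])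
    rw [Real.dist_eq] at h3
    exact h3.le
  obtain ⟨ε', hε'⟩ : ∃ ε', ε' = ε / (2 * (N * (K + δ) + 1)) := ⟨_, rfl⟩
  have hε'0 : 0 < ε' := by rw [hε']; positivity
  have hall : ∀ᶠ T in l, ∀ j ∈ Finset.range N, ∫ x in X j..X (j + 1), g T x ≤ (∫ x in X j..X (j + 1), m x) + ε' := by
    rw [Filter.eventually_all_finset]
    intro j hj
    exact H _ _ (hXmem j (Finset.mem_range.1 hj)).1 (hXlt j) ε' hε'0
  filter_upwards [hall, hg0] with T hT hT0
  have hii : ∀ (f : ℝ → ℝ), Continuous f → ∀ a b, IntervalIntegrable f volume a b := fun f hf a b => hf.intervalIntegrable a b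
  have s1 : ∫ x in p..e, v x * g T x = ∑ j ∈ Finset.range N, ∫ x in X j..X (j + 1), v x * g T x := by
    rw [intervalIntegral.sum_integral_adjacent_intervals (f := fun x => v x * g T x)
      fun j _ => hii _ (hv.mul (hg T)) _ _, hX0, hXN]
  have s2 : ∫ x in p..e, v x * m x = ∑ j ∈ Finset.range N, ∫ x in X j..X (j + 1), v x * m x := by
    rw [intervalIntegral.sum_integral_adjacent_intervals (f := fun x => v x * m x)
      fun j _ => hii _ (hv.mul hm) _ _, hX0, hXN]
  have s3 : M = ∑ j ∈ Finset.range N, ∫ x in X j..X (j + 1), m x := by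
    rw [hM, intervalIntegral.sum_integral_adjacent_intervals fun j _ => hii _ hm _ _, hX0, hXN]
  have hj : ∀ j ∈ Finset.range N, ∫ x in X j..X (j + 1), v x * g T x ≤
      (∫ x in X j..X (j + 1), v x * m x) + 2 * δ * (∫ x in X j..X (j + 1), m x) + (K + δ) * ε' := by
    intro j hj
    have hjN := Finset.mem_range.1 hj
    have hle := (hXlt j).le
    obtain ⟨h1, h2⟩ := hXmem j hjN
    have hvj : v (X j) ≤ K := hK _ ⟨h1, hle.trans h2⟩
    have a1 : ∫ x in X j..X (j + 1), v x * g T x ≤ ∫ x in X j..X (j + 1), (v (X j) + δ) * g T x := by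
      refine intervalIntegral.integral_mono_on hle (hii _ (hv.mul (hg T)) _ _)
        (hii _ (continuous_const.mul (hg T)) _ _) fun x hx => ?_
      refine mul_le_mul_of_nonneg_right ?_ (hT0 x)
      have := (abs_le.1 (hosc j hjN x hx)).2
      linarith
    rw [intervalIntegral.integral_const_mul] at a1
    have hvδ : 0 ≤ v (X j) + δ := add_nonneg (hv0 _) hδ0.le
    have a2 := mul_le_mul_of_nonneg_left (hT j hj) hvδ
    have a3 : (v (X j) - δ) * ∫ x in X j..X (j + 1), m x ≤ ∫ x in X j..X (j + 1), v x * m x := by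
      rw [← intervalIntegral.integral_const_mul]
      refine intervalIntegral.integral_mono_on hle (hii _ (continuous_const.mul hm) _ _)
        (hii _ (hv.mul hm) _ _) fun x hx => ?_
      refine mul_le_mul_of_nonneg_right ?_ (hm0 x (h1.trans hx.1))
      have := (abs_le.1 (hosc j hjN x hx)).1
      linarith
    have a4 : (v (X j) + δ) * ε' ≤ (K + δ) * ε' := mul_le_mul_of_nonneg_right (by linarith) hε'0.le
    linarith
  have hKδ : N * ((K + δ) * ε') ≤ ε / 2 := by
    rw [hε']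
    have h1 : (N : ℝ) * ((K + δ) * (ε / (2 * (N * (K + δ) + 1)))) =
        (ε / 2) * ((N * (K + δ)) / (N * (K + δ) + 1)) := by
      field_simp
    rw [h1]
    have h2 : (N * (K + δ)) / (N * (K + δ) + 1) ≤ 1 := by
      rw [div_le_one (by positivity)]
      linarith
    nlinarith
  calc ∫ x in p..e, v x * g T x = ∑ j ∈ Finset.range N, ∫ x in X j..X (j + 1), v x * g T x := s1
    _ ≤ ∑ j ∈ Finset.range N, ((∫ x in X j..X (j + 1), v x * m x) + 2 * δ * (∫ x in X j..X (j + 1), m x) +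
          (K + δ) * ε') := Finset.sum_le_sum hj
    _ = (∫ x in p..e, v x * m x) + 2 * δ * M + N * ((K + δ) * ε') := by
        rw [Finset.sum_add_distrib, Finset.sum_add_distrib, ← Finset.mul_sum, ← s2, ← s3, Finset.sum_const,
          Finset.card_range, nsmul_eq_mul]
    _ ≤ _ := by linarith

/-- Smooth cut-off functions. -/
theorem exists_cut {p q η : ℝ} (hpq : p < q) (hη : 0 < η) : ∃ w : ℝ → ℝ, ContDiff ℝ (⊤ : ℕ∞) w ∧
    (∀ x, 0 ≤ w x) ∧ (∀ x, w x ≤ 1) ∧ (∀ x ∈ Icc p q, w x = 1) ∧ ∀ x, w x ≠ 0 → p - η ≤ x ∧ x ≤ q + η := by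
  let b : ContDiffBump ((p + q) / 2) := ⟨(q - p) / 2, (q - p) / 2 + η, by linarith, by linarith⟩
  refine ⟨fun x => b x, b.contDiff, fun x => b.nonneg, fun x => b.le_one, fun x hx => ?_, fun x hx => ?_⟩
  · apply b.one_of_mem_closedBall
    rw [mem_closedBall_iff_norm, Real.norm_eq_abs, abs_le]
    change -((q - p) / 2) ≤ _ ∧ _ ≤ (q - p) / 2
    constructor
    · linarith [hx.1]
    · linarith [hx.2]
  · have h1 : x ∈ Function.support b := hx
    rw [b.support_eq, mem_ball_iff_norm, Real.norm_eq_abs, abs_lt] at h1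
    change -((q - p) / 2 + η) < _ ∧ _ < (q - p) / 2 + η at h1
    constructor
    · linarith [h1.1]
    · linarith [h1.2]

end Pool.Agent.Helper6.FU
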