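import Pool.Agent.Helper93.LP.Main
import Pool.Agent.Helper92.RG.Conv
import Pool.Agent.Helper6.FU.Riem

/-!
# FU: upper bounds for the form factor of the ordinates (MP_8958e8)

`FO T x = (T log T / 2π)⁻¹ |∑ m_ρ T^(i x γ)|²` is the Fourier transform of the normalised pair measure.
For `θ < 1` the upper bounds `∫_a^b FO ≤ ∫_a^b min(x,1) dx + o(1)` (`θ < a < b`) imply the pair correlation conjecture.
-/

open Complex Set MeasureTheory Filter Topology
open Pool.Agent.Helper57.LH Pool.Agent.Helper57.PC Pool.Agent.Helper57.Zeta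
open Pool.Agent.Helper69.GGM Pool.Agent.Helper93.LP

namespace Pool.Agent.Helper6.FU

/-- the form factor of the ordinates -/
noncomputable def FO (T x : ℝ) : ℝ :=
  ‖∑ ρ ∈ Zf T, (mult ρ : ℂ) * Complex.exp (((x * Real.log T * ρ.im : ℝ) : ℂ) * I)‖ ^ 2 / SN T

/-- upper bounds for the form factor on the intervals in `(θ,∞)` -/
def FFUp (l : Filter ℝ) (θ : ℝ) : Prop :=
  ∀ a b : ℝ, θ < a → a < b → ∀ ε : ℝ, 0 < ε → ∀ᶠ T : ℝ in l,
    ∫ x in a..b, FO T x ≤ (∫ x in a..b, min x 1) + ε

/-- the asymptotic formula for the form factor on the intervals in `(0,∞)` -/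
def FFLaw (l : Filter ℝ) : Prop :=
  ∀ a b : ℝ, 0 < a → a < b → Tendsto (fun T : ℝ => ∫ x in a..b, FO T x) l (𝓝 (∫ x in a..b, min x 1))

theorem FO_cont (T : ℝ) : Continuous (FO T) := by
  unfold FO
  fun_prop

theorem FO_nonneg {T : ℝ} (hT : 1 < T) (x : ℝ) : 0 ≤ FO T x := by
  unfold FO
  exact div_nonneg (by positivity) (SN_pos hT).le

/-- the smooth weights in terms of `FO` -/
theorem FT_eq {T : ℝ} (hT : 1 < T) {w : ℝ → ℝ} {a b p e : ℝ} (hw : WR w a b) (hp : 0 < p) (hpa : p < a) (hbe : b < e) :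
    FT T (fun α => w α ^ 2) = ∫ x in p..e, w x ^ 2 * FO T x := by
  have h1 := (FT_rep hT (WR_integrable hw)).1
  have hab := hw.2.2.1
  rw [h1, intervalIntegral.integral_of_le (by linarith), ← integral_div]
  have e1 : ∀ x, w x ^ 2 * FO T x = w x ^ 2 *
      ‖∑ ρ ∈ Zf T, (mult ρ : ℂ) * Complex.exp (((x * Real.log T * ρ.im : ℝ) : ℂ) * I)‖ ^ 2 / SN T := by
    intro x
    unfold FO
    ring
  simp_rw [e1]
  refine (setIntegral_eq_of_subset_of_forall_sdiff_eq_zero measurableSet_Ioi
    (fun x hx => lt_trans hp hx.1) fun x hx => ?_)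
  have hx0 : w x = 0 := by
    by_contra hne
    have h2 := hw.2.2.2 x hne
    exact hx.2 ⟨by linarith [h2.1], by linarith [h2.2]⟩
  rw [hx0]
  simp

theorem VW_eq' {w : ℝ → ℝ} {a b p e : ℝ} (hw : WR w a b) (hp : 0 < p) (hpa : p < a) (hbe : b < e) :
    VW w = ∫ x in p..e, w x ^ 2 * min x 1 := by
  have hab := hw.2.2.1
  unfold VW
  rw [intervalIntegral.integral_of_le (by linarith)]
  have e1 : ∀ x, min x 1 * w x ^ 2 = w x ^ 2 * min x 1 := fun x => mul_comm _ _
  simp_rw [e1]
  refine (setIntegral_eq_of_subset_of_forall_sdiff_eq_zero measurableSet_Ioi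
    (fun x hx => lt_trans hp hx.1) fun x hx => ?_)
  have hx0 : w x = 0 := by
    by_contra hne
    have h2 := hw.2.2.2 x hne
    exact hx.2 ⟨by linarith [h2.1], by linarith [h2.2]⟩
  rw [hx0]
  simp

/-- from intervals to smooth weights -/
theorem long_of_ff {l : Filter ℝ} (hl : l ≤ atTop) {θ : ℝ} (hθ : 0 ≤ θ) (h : FFUp l θ) {w : ℝ → ℝ} {a b : ℝ}
    (hw : WR w a b) (ha : θ < a) {ε : ℝ} (hε : 0 < ε) : ∀ᶠ T : ℝ in l, FT T (fun α => w α ^ 2) ≤ VW w + ε := by
  have hab := hw.2.2.1
  obtain ⟨p, hp⟩ : ∃ p, p = (θ + a) / 2 := ⟨_, rfl⟩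
  have hp0 : 0 < p := by rw [hp]; linarith [hw.2.1]
  have hpa : p < a := by rw [hp]; linarith
  have hθp : θ < p := by rw [hp]; linarith
  have hT1 : ∀ᶠ T : ℝ in l, 1 < T := hl (eventually_gt_atTop 1)
  have key := riem (l := l) (g := FO) (m := fun x => min x 1) (v := fun x => w x ^ 2) (p := p) (e := b + 1)
    (by linarith) FO_cont (by filter_upwards [hT1] with T hT x using FO_nonneg hT x)
    (continuous_id.min continuous_const) (fun x hx => le_min (by linarith) zero_le_one)
    (hw.1.continuous.pow 2) (fun x => sq_nonneg _) (fun a' b' ha' hab' ε' hε' => h a' b' (by linarith) hab' ε' hε') hε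
  filter_upwards [key, hT1] with T hT hT1
  rw [FT_eq hT1 hw hp0 hpa (show b < b + 1 by linarith), VW_eq' hw hp0 hpa (show b < b + 1 by linarith)]
  exact hT

/-- The upper bounds put almost all zeros on the line. -/
theorem nl_of_ff {l : Filter ℝ} (hl : l ≤ atTop) {θ : ℝ} (hθ0 : 0 ≤ θ) (hθ : θ < 1) (h : FFUp l θ) :
    Tendsto (fun T => (∑ ρ ∈ Pool.Agent.Helper92.RG.ZO T, mx ρ) / SN T) l (𝓝 0) := by
  obtain ⟨C₁, hC₁, hb₁⟩ := exp_bdd (c := 1) one_pos
  have hT1 : ∀ᶠ T : ℝ in l, 1 < T := hl (eventually_gt_atTop 1)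
  -- bound of the Poisson sums
  have key : ∀ c : ℝ, 0 < c → ∀ᶠ T : ℝ in l, c * (WP T (Pk c) / SN T) ≤ 1 + c * (Real.exp 1 * C₁ + 2) := by
    intro c hc
    obtain ⟨C₂, hC₂, hb₂⟩ := exp_bdd (c := c / 2) (by positivity)
    -- choice of A
    obtain ⟨A, hA1, hA⟩ : ∃ A : ℝ, 2 < A ∧ Real.exp (-(c / 2) * A) * C₂ ≤ 1 := by
      have h1 : Tendsto (fun A : ℝ => Real.exp (-(c / 2) * A) * C₂) atTop (𝓝 (0 * C₂)) := by
        refine Tendsto.mul_const _ ?_
        refine Real.tendsto_exp_atBot.comp ?_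
        exact tendsto_id.const_mul_atTop_of_neg (by linarith)
      rw [zero_mul] at h1
      obtain ⟨A, hA, hA'⟩ := ((h1.eventually (gt_mem_nhds one_pos)).and (eventually_gt_atTop 2)).exists
      exact ⟨A, hA', hA.le⟩
    obtain ⟨χ, hχ1, hχ2, hχ3, hχ4, hχ5⟩ := exists_cut (p := 1) (q := A) (η := (1 - θ) / 2) (by linarith) (by linarith)
    obtain ⟨w, hwd⟩ : ∃ w : ℝ → ℝ, w = fun x => Real.exp (-(c / 2) * x) * χ x := ⟨_, rfl⟩
    have hw : WR w (1 - (1 - θ) / 2) (A + (1 - θ) / 2) := by
      refine ⟨?_, by linarith, by linarith, fun x hx => hχ5 x fun h0 => hx ?_⟩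
      · rw [hwd]
        exact (Real.contDiff_exp.comp (contDiff_const.mul contDiff_id)).mul hχ1
      · rw [hwd]
        simp only
        rw [h0, mul_zero]
    have hww : ∀ x, w x ^ 2 = Real.exp (-c * x) * χ x ^ 2 := by
      intro x
      rw [hwd]
      simp only
      rw [mul_pow, ← Real.exp_nat_mul]
      congr 2
      push_cast
      ring
    have hwle : ∀ x, w x ^ 2 ≤ Real.exp (-c * x) := by
      intro x
      rw [hww]
      refine mul_le_of_le_one_right (Real.exp_pos _).le ?_
      exact pow_le_one₀ (hχ2 x) (hχ3 x)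
    have hV : VW w ≤ 1 / c := by
      have e1 : ∫ x in Ioi (0:ℝ), Real.exp (-c * x) = 1 / c := by
        rw [integral_exp_mul_Ioi (by linarith)]
        simp
      rw [← e1]
      unfold VW
      refine setIntegral_mono_on ?_ (FTu.exp_int hc) measurableSet_Ioi fun x hx => ?_
      · have h1 : IntegrableOn (fun α => w α ^ 2) (Ioi 0) := WR_integrable hw
        refine Integrable.mono h1 ?_ ?_
        · exact ((measurable_id.min measurable_const).mul (hw.1.continuous.measurable.pow_const 2)).aestronglyMeasurable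
        · refine (ae_restrict_iff' measurableSet_Ioi).2 (Eventually.of_forall fun x hx => ?_)
          have hx0 : (0:ℝ) < x := hx
          rw [norm_mul]
          refine mul_le_of_le_one_left (norm_nonneg _) ?_
          rw [Real.norm_eq_abs, abs_of_nonneg (le_min hx0.le zero_le_one)]
          exact min_le_right _ _
      · have hx0 : (0:ℝ) < x := hx
        calc min x 1 * w x ^ 2 ≤ 1 * w x ^ 2 := mul_le_mul_of_nonneg_right (min_le_right _ _) (sq_nonneg _)
          _ ≤ _ := by rw [one_mul]; exact hwle x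
    have hpt : ∀ α : ℝ, 0 < α → Real.exp (-c * α) ≤
        Real.exp 1 * Real.exp (-1 * α) + (w α ^ 2 + Real.exp (-(c / 2) * A) * Real.exp (-(c / 2) * α)) := by
      intro α hα
      have p1 : 0 ≤ Real.exp 1 * Real.exp (-1 * α) := by positivity
      have p2 : 0 ≤ Real.exp (-(c / 2) * A) * Real.exp (-(c / 2) * α) := by positivity
      have p3 : 0 ≤ w α ^ 2 := sq_nonneg _
      rcases le_or_gt α 1 with h1 | h1
      · have : Real.exp (-c * α) ≤ Real.exp 1 * Real.exp (-1 * α) := by
          rw [← Real.exp_add, Real.exp_le_exp]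
          nlinarith
        linarith
      · rcases le_or_gt α A with h2 | h2
        · have : Real.exp (-c * α) = w α ^ 2 := by
            rw [hww, hχ4 α ⟨h1.le, h2⟩]
            simp
          linarith
        · have : Real.exp (-c * α) ≤ Real.exp (-(c / 2) * A) * Real.exp (-(c / 2) * α) := by
            rw [← Real.exp_add, Real.exp_le_exp]
            nlinarith
          linarith
    have hlong := long_of_ff hl hθ0 h hw (by linarith) (ε := 1) one_pos
    filter_upwards [hlong, hl hb₁, hl hb₂, hT1] with T h1 h2 h3 h4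
    have i1 := FTu.exp_int (c := 1) one_pos
    have i2 := FTu.exp_int (c := c / 2) (by positivity)
    have i3 : IntegrableOn (fun α => w α ^ 2) (Ioi 0) := WR_integrable hw
    have i4 : IntegrableOn (fun α => Real.exp (-(c / 2) * A) * Real.exp (-(c / 2) * α)) (Ioi 0) := i2.const_mul _
    have i5 : IntegrableOn (fun α => Real.exp 1 * Real.exp (-1 * α)) (Ioi 0) := i1.const_mul _
    have h5 := FT_mono h4 (FTu.exp_int hc) (i5.add (i3.add i4)) hpt
    rw [FT_exp h4 hc] at h5
    have h6 : FT T ((fun α => Real.exp 1 * Real.exp (-1 * α)) + ((fun α => w α ^ 2) +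
        fun α => Real.exp (-(c / 2) * A) * Real.exp (-(c / 2) * α))) =
        Real.exp 1 * (WP T (Pk 1) / SN T) + (FT T (fun α => w α ^ 2) + Real.exp (-(c / 2) * A) *
          (WP T (Pk (c / 2)) / SN T)) := by
      have f1 := FT_add h4 i5 (i3.add i4)
      have f2 := FT_add h4 i3 i4
      have f3 := FT_smul h4 i1 (Real.exp 1)
      have f4 := FT_smul h4 i2 (Real.exp (-(c / 2) * A))
      rw [FT_exp h4 one_pos] at f3
      rw [FT_exp h4 (by positivity)] at f4
      rw [f4] at f2
      rw [f3] at f1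
      rw [← f2]
      exact f1
    have h7 : WP T (Pk c) / SN T ≤ Real.exp 1 * C₁ + (1 / c + 1 + 1) := by
      refine h5.trans ?_
      have g1 : Real.exp 1 * (WP T (Pk 1) / SN T) ≤ Real.exp 1 * C₁ := mul_le_mul_of_nonneg_left h2 (Real.exp_pos _).le
      have g2 : Real.exp (-(c / 2) * A) * (WP T (Pk (c / 2)) / SN T) ≤ 1 :=
        (mul_le_mul_of_nonneg_left h3 (Real.exp_pos _).le).trans hA
      have g3 : FT T (fun α => w α ^ 2) ≤ 1 / c + 1 := by linarith
      have g4 := h6.le
      refine le_trans ?_ (add_le_add g1 (add_le_add g3 g2))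
      exact g4
    have h8 := mul_le_mul_of_nonneg_left h7 hc.le
    refine h8.trans (le_of_eq ?_)
    field_simp
    ring
  -- conclusion
  rw [Metric.tendsto_nhds]
  intro ε hε
  obtain ⟨D, hD⟩ : ∃ D, D = Real.exp 1 * C₁ + 2 := ⟨_, rfl⟩
  have hD0 : 0 < D := by rw [hD]; positivity
  have hc : 0 < ε / (4 * D) := by positivity
  have hk := key _ hc
  rw [← hD] at hk
  have hNT := (Pool.Agent.Helper92.RG.NT_ratio.mono_left hl).eventually (lt_mem_nhds (show 1 - ε / 4 < 1 by linarith))
  filter_upwards [hk, hNT, hT1] with T h1 h2 h3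
  have hS := SN_pos h3
  have h4 := Pool.Agent.Helper92.RG.diag_off h3
  obtain ⟨c, hcd⟩ : ∃ c, c = ε / (4 * D) := ⟨_, rfl⟩
  rw [← hcd] at h1 hc
  have h5 : pairCount T 0 0 ≤ c * WP T (Pk c) := by
    classical
    rw [← WP_smul, pairCount_eq]
    unfold WP
    refine Finset.sum_le_sum fun p _ => ?_
    have hm : (0 : ℝ) ≤ (mult p.1 : ℝ) * (mult p.2 : ℝ) := by positivity
    split_ifs with hp
    · have h0 : nd T p = 0 := le_antisymm hp.2 hp.1
      rw [h0]
      have : c * Pk c 0 = 1 := by
        unfold Pk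
        have := hc.ne'
        field_simp
        simp
      beta_reduce
      rw [this, mul_one]
    · exact mul_nonneg hm (mul_nonneg hc.le (Pk_nonneg hc _))
  have h6 : 0 ≤ ∑ ρ ∈ Pool.Agent.Helper92.RG.ZO T, mx ρ := Finset.sum_nonneg fun ρ _ => mx_nonneg _
  rw [Real.dist_eq, sub_zero, abs_of_nonneg (div_nonneg h6 hS.le), div_lt_iff₀ hS]
  have h7 : c * WP T (Pk c) ≤ (1 + c * D) * SN T := by
    rw [← mul_div_assoc, div_le_iff₀ hS] at h1
    exact h1
  have h8 : (1 - ε / 4) * SN T < NT T := by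
    rw [lt_div_iff₀ hS] at h2
    exact h2
  have h9 : c * D = ε / 4 := by
    rw [hcd]
    field_simp
  rw [h9] at h7
  nlinarith

theorem offLine_of_nl {l : Filter ℝ} (hl : l ≤ atTop)
    (h : Tendsto (fun T => (∑ ρ ∈ Pool.Agent.Helper92.RG.ZO T, mx ρ) / SN T) l (𝓝 0)) : OffLine l := by
  classical
  intro ε hε
  have hT1 : ∀ᶠ T : ℝ in l, 1 < T := hl (eventually_gt_atTop 1)
  refine tendsto_of_tendsto_of_tendsto_of_le_of_le' tendsto_const_nhds h ?_ ?_
  · filter_upwards [hT1] with T hT
    exact div_nonneg (Finset.sum_nonneg fun ρ _ => mx_nonneg _) (SN_pos hT).le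
  · filter_upwards [hT1] with T hT
    have hS := SN_pos hT
    refine div_le_div_of_nonneg_right ?_ hS.le
    unfold offCount Pool.Agent.Helper92.RG.ZO
    rw [Finset.sum_filter, Finset.sum_filter]
    have e1 := sum_ZT T (fun ρ => if ρ.re ≠ 1 / 2 then mx ρ else 0)
    rw [e1]
    refine Finset.sum_le_sum fun ρ _ => ?_
    by_cases h1 : ρ.re ≠ 1 / 2
    · rw [if_pos h1]
      split_ifs
      · exact le_rfl
      · exact mx_nonneg _
    · rw [if_neg h1, if_neg]
      push Not at h1
      rw [h1]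
      simp only [sub_self, mul_zero, abs_zero, not_le]
      exact hε

theorem q1_of_ffUp {l : Filter ℝ} (hl : l ≤ atTop) {θ : ℝ} (hθ0 : 0 ≤ θ) (hθ : θ < 1) (h : FFUp l θ) : Q1 l := by
  have hOff : OffLine l := offLine_of_nl hl (nl_of_ff hl hθ0 hθ h)
  have hF : UpF l := by
    apply upF_of_parts hl hθ
    · intro w a b hw hb ε hε
      exact ft_of_mp hl hOff hw (fun B _ ε' hε' => by
        filter_upwards [hl (short_law hw hb hε')] with T hT
        exact hT B) hε
    · intro w a b hw ha ε hε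
      exact long_of_ff hl hθ0 h hw ha hε
  exact q1_of_lawP hl (lawP_of_upF hl hF)

/-- the integral of `min(x,1)` over a small interval -/
theorem int_min_le {a b : ℝ} (ha : 0 ≤ a) (hab : a ≤ b) : 0 ≤ ∫ x in a..b, min x 1 ∧ ∫ x in a..b, min x 1 ≤ b - a := by
  constructor
  · exact intervalIntegral.integral_nonneg hab fun x hx => le_min (ha.trans hx.1) zero_le_one
  · have hc : Continuous fun x : ℝ => min x 1 := continuous_id.min continuous_const
    calc ∫ x in a..b, min x 1 ≤ ∫ x in a..b, (1:ℝ) :=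
          intervalIntegral.integral_mono_on hab (hc.intervalIntegrable _ _) (continuous_const.intervalIntegrable _ _)
            fun x _ => min_le_right _ _
      _ = b - a := by simp

theorem ffLaw_of_lawP {l : Filter ℝ} (hl : l ≤ atTop) (h : LawP l) : FFLaw l := by
  intro a b ha hab
  have hT1 : ∀ᶠ T : ℝ in l, 1 < T := hl (eventually_gt_atTop 1)
  have hm : Continuous fun x : ℝ => min x 1 := continuous_id.min continuous_const
  have hii : ∀ (f : ℝ → ℝ), Continuous f → ∀ a b, IntervalIntegrable f volume a b := fun f hf a b => hf.intervalIntegrable a b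
  rw [Metric.tendsto_nhds]
  intro ε hε
  obtain ⟨η, hη⟩ : ∃ η, η = min (min (a / 3) ((b - a) / 4)) (ε / 8) := ⟨_, rfl⟩
  have hη0 : 0 < η := by
    rw [hη]
    exact lt_min (lt_min (by positivity) (by linarith)) (by positivity)
  have hηa : η ≤ a / 3 := by rw [hη]; exact (min_le_left _ _).trans (min_le_left _ _)
  have hηb : η ≤ (b - a) / 4 := by rw [hη]; exact (min_le_left _ _).trans (min_le_right _ _)
  have hηε : η ≤ ε / 8 := by rw [hη]; exact min_le_right _ _
  obtain ⟨w₁, u1, u2, u3, u4, u5⟩ := exists_cut (p := a) (q := b) (η := η) hab hη0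
  obtain ⟨w₂, v1, v2, v3, v4, v5⟩ := exists_cut (p := a + η) (q := b - η) (η := η) (by linarith) hη0
  have hw₁ : WR w₁ (a - η) (b + η) := ⟨u1, by linarith, by linarith, u5⟩
  have hw₂ : WR w₂ a b := ⟨v1, ha, hab.le, fun x hx => by
    have := v5 x hx
    constructor <;> linarith [this.1, this.2]⟩
  have l1 := weier hl h hw₁
  have l2 := weier hl h hw₂
  have b1 : VW w₁ ≤ (∫ x in a..b, min x 1) + 4 * η := by
    rw [VW_eq' hw₁ (p := a - 2 * η) (e := b + 2 * η) (by linarith) (by linarith) (by linarith)]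
    calc ∫ x in (a - 2 * η)..(b + 2 * η), w₁ x ^ 2 * min x 1 ≤ ∫ x in (a - 2 * η)..(b + 2 * η), min x 1 := by
          refine intervalIntegral.integral_mono_on (by linarith) (hii _ ((u1.continuous.pow 2).mul hm) _ _)
            (hii _ hm _ _) fun x hx => ?_
          exact mul_le_of_le_one_left (le_min (by linarith [hx.1]) zero_le_one) (pow_le_one₀ (u2 x) (u3 x))
      _ = (∫ x in (a - 2 * η)..a, min x 1) + (∫ x in a..b, min x 1) + ∫ x in b..(b + 2 * η), min x 1 := by
          rw [intervalIntegral.integral_add_adjacent_intervals (hii _ hm _ _) (hii _ hm _ _),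
            intervalIntegral.integral_add_adjacent_intervals (hii _ hm _ _) (hii _ hm _ _)]
      _ ≤ _ := by
          have e1 := (int_min_le (a := a - 2 * η) (b := a) (by linarith) (by linarith)).2
          have e2 := (int_min_le (a := b) (b := b + 2 * η) (by linarith) (by linarith)).2
          linarith
  have b2 : (∫ x in a..b, min x 1) - 2 * η ≤ VW w₂ := by
    rw [VW_eq' hw₂ (p := a - η) (e := b + η) (by linarith) (by linarith) (by linarith)]
    have c0 : ∀ x, a - η ≤ x → 0 ≤ w₂ x ^ 2 * min x 1 := fun x hx =>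
      mul_nonneg (sq_nonneg _) (le_min (by linarith) zero_le_one)
    have c1 : ∫ x in (a - η)..(b + η), w₂ x ^ 2 * min x 1 = (∫ x in (a - η)..(a + η), w₂ x ^ 2 * min x 1) +
        (∫ x in (a + η)..(b - η), w₂ x ^ 2 * min x 1) + ∫ x in (b - η)..(b + η), w₂ x ^ 2 * min x 1 := by
      have hc : Continuous fun x => w₂ x ^ 2 * min x 1 := (v1.continuous.pow 2).mul hm
      rw [intervalIntegral.integral_add_adjacent_intervals (hii _ hc _ _) (hii _ hc _ _),
        intervalIntegral.integral_add_adjacent_intervals (hii _ hc _ _) (hii _ hc _ _)]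
    have c2 : 0 ≤ ∫ x in (a - η)..(a + η), w₂ x ^ 2 * min x 1 :=
      intervalIntegral.integral_nonneg (by linarith) fun x hx => c0 x hx.1
    have c3 : 0 ≤ ∫ x in (b - η)..(b + η), w₂ x ^ 2 * min x 1 :=
      intervalIntegral.integral_nonneg (by linarith) fun x hx => c0 x (by linarith [hx.1])
    have c4 : ∫ x in (a + η)..(b - η), w₂ x ^ 2 * min x 1 = ∫ x in (a + η)..(b - η), min x 1 := by
      refine intervalIntegral.integral_congr fun x hx => ?_
      rw [uIcc_of_le (by linarith)] at hx
      rw [v4 x hx]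
      simp
    have c5 : ∫ x in a..b, min x 1 = (∫ x in a..(a + η), min x 1) + (∫ x in (a + η)..(b - η), min x 1) +
        ∫ x in (b - η)..b, min x 1 := by
      rw [intervalIntegral.integral_add_adjacent_intervals (hii _ hm _ _) (hii _ hm _ _),
        intervalIntegral.integral_add_adjacent_intervals (hii _ hm _ _) (hii _ hm _ _)]
    have e1 := (int_min_le (a := a) (b := a + η) (by linarith) (by linarith)).2
    have e2 := (int_min_le (a := b - η) (b := b) (by linarith) (by linarith)).2
    rw [c1, c4, c5]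
    linarith
  filter_upwards [l1.eventually (gt_mem_nhds (show VW w₁ < VW w₁ + ε / 4 by linarith)),
    l2.eventually (lt_mem_nhds (show VW w₂ - ε / 4 < VW w₂ by linarith)), hT1] with T h1 h2 h3
  rw [FT_eq h3 hw₁ (p := a - 2 * η) (e := b + 2 * η) (by linarith) (by linarith) (by linarith)] at h1
  rw [FT_eq h3 hw₂ (p := a - η) (e := b + η) (by linarith) (by linarith) (by linarith)] at h2
  have hF := FO_cont T
  have hF0 := FO_nonneg h3
  have d1 : ∫ x in a..b, FO T x ≤ ∫ x in (a - 2 * η)..(b + 2 * η), w₁ x ^ 2 * FO T x := by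
    have hc : Continuous fun x => w₁ x ^ 2 * FO T x := (u1.continuous.pow 2).mul hF
    have e1 : ∫ x in (a - 2 * η)..(b + 2 * η), w₁ x ^ 2 * FO T x = (∫ x in (a - 2 * η)..a, w₁ x ^ 2 * FO T x) +
        (∫ x in a..b, w₁ x ^ 2 * FO T x) + ∫ x in b..(b + 2 * η), w₁ x ^ 2 * FO T x := by
      rw [intervalIntegral.integral_add_adjacent_intervals (hii _ hc _ _) (hii _ hc _ _),
        intervalIntegral.integral_add_adjacent_intervals (hii _ hc _ _) (hii _ hc _ _)]
    have e2 : 0 ≤ ∫ x in (a - 2 * η)..a, w₁ x ^ 2 * FO T x :=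
      intervalIntegral.integral_nonneg (by linarith) fun x _ => mul_nonneg (sq_nonneg _) (hF0 x)
    have e3 : 0 ≤ ∫ x in b..(b + 2 * η), w₁ x ^ 2 * FO T x :=
      intervalIntegral.integral_nonneg (by linarith) fun x _ => mul_nonneg (sq_nonneg _) (hF0 x)
    have e4 : ∫ x in a..b, w₁ x ^ 2 * FO T x = ∫ x in a..b, FO T x := by
      refine intervalIntegral.integral_congr fun x hx => ?_
      rw [uIcc_of_le hab.le] at hx
      rw [u4 x hx]
      simp
    rw [e1, e4]
    linarith
  have d2 : ∫ x in (a - η)..(b + η), w₂ x ^ 2 * FO T x ≤ ∫ x in a..b, FO T x := by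
    have hc : Continuous fun x => w₂ x ^ 2 * FO T x := (v1.continuous.pow 2).mul hF
    have e1 : ∫ x in (a - η)..(b + η), w₂ x ^ 2 * FO T x = (∫ x in (a - η)..a, w₂ x ^ 2 * FO T x) +
        (∫ x in a..b, w₂ x ^ 2 * FO T x) + ∫ x in b..(b + η), w₂ x ^ 2 * FO T x := by
      rw [intervalIntegral.integral_add_adjacent_intervals (hii _ hc _ _) (hii _ hc _ _),
        intervalIntegral.integral_add_adjacent_intervals (hii _ hc _ _) (hii _ hc _ _)]
    have hz : ∀ x, x ≤ a → w₂ x = 0 := by
      intro x hx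
      rcases eq_or_lt_of_le hx with h | h
      · by_contra hne
        -- continuity at the end point
        have h4 : ∀ y, y < a → w₂ y = 0 := by
          intro y hy
          by_contra hne'
          linarith [(hw₂.2.2.2 y hne').1]
        have h5 : Tendsto w₂ (𝓝[<] a) (𝓝 (w₂ a)) := (v1.continuous.tendsto a).mono_left nhdsWithin_le_nhds
        have h6 : Tendsto w₂ (𝓝[<] a) (𝓝 0) := by
          refine tendsto_const_nhds.congr' ?_
          filter_upwards [self_mem_nhdsWithin] with y hy
          exact (h4 y hy).symm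
        rw [h] at hne
        exact hne (tendsto_nhds_unique h5 h6)
      · by_contra hne
        linarith [(hw₂.2.2.2 x hne).1]
    have hz' : ∀ x, b ≤ x → w₂ x = 0 := by
      intro x hx
      rcases eq_or_lt_of_le hx with h | h
      · by_contra hne
        have h4 : ∀ y, b < y → w₂ y = 0 := by
          intro y hy
          by_contra hne'
          linarith [(hw₂.2.2.2 y hne').2]
        have h5 : Tendsto w₂ (𝓝[>] b) (𝓝 (w₂ b)) := (v1.continuous.tendsto b).mono_left nhdsWithin_le_nhds
        have h6 : Tendsto w₂ (𝓝[>] b) (𝓝 0) := by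
          refine tendsto_const_nhds.congr' ?_
          filter_upwards [self_mem_nhdsWithin] with y hy
          exact (h4 y hy).symm
        rw [← h] at hne
        exact hne (tendsto_nhds_unique h5 h6)
      · by_contra hne
        linarith [(hw₂.2.2.2 x hne).2]
    have e2 : ∫ x in (a - η)..a, w₂ x ^ 2 * FO T x = 0 := by
      rw [intervalIntegral.integral_congr (g := fun _ => (0:ℝ))]
      · simp
      · intro x hx
        rw [uIcc_of_le (by linarith)] at hx
        beta_reduce
        rw [hz x hx.2]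
        simp
    have e3 : ∫ x in b..(b + η), w₂ x ^ 2 * FO T x = 0 := by
      rw [intervalIntegral.integral_congr (g := fun _ => (0:ℝ))]
      · simp
      · intro x hx
        rw [uIcc_of_le (by linarith)] at hx
        beta_reduce
        rw [hz' x hx.1]
        simp
    have e4 : ∫ x in a..b, w₂ x ^ 2 * FO T x ≤ ∫ x in a..b, FO T x := by
      refine intervalIntegral.integral_mono_on hab.le (hii _ hc _ _) (hii _ hF _ _) fun x _ => ?_
      exact mul_le_of_le_one_left (hF0 x) (pow_le_one₀ (v2 x) (v3 x))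
    rw [e1, e2, e3]
    linarith
  rw [Real.dist_eq, abs_lt]
  constructor
  · linarith
  · linarith

theorem ffUp_of_ffLaw {l : Filter ℝ} (h : FFLaw l) {θ : ℝ} (hθ : 0 ≤ θ) : FFUp l θ := by
  intro a b ha hab ε hε
  filter_upwards [(h a b (lt_of_le_of_lt hθ ha) hab).eventually
    (gt_mem_nhds (show (∫ x in a..b, min x 1) < (∫ x in a..b, min x 1) + ε by linarith))] with T hT
  exact hT.le

end Pool.Agent.Helper6.FU
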